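import Pool.Agent.H16.NV.Stm

/-!
# Crew NV, part CMP: compactness and positive volume of `Simp n` and `Kb d`
-/

set_option autoImplicit false

open MeasureTheory Set
open scoped ENNReal NNReal

namespace Pool.Agent.H4.NV

open Pool.Agent.H16.NV

theorem sum_bc {n : ℕ} (x : Fin n → ℝ) : ∑ a, bc x a = 1 := by
  unfold bc
  rw [Fin.sum_univ_succ]
  simp

theorem simp_subset_Kb {n : ℕ} (d : Fin (n + 1) → ℝ) : Simp n ⊆ Kb d := by
  rintro z ⟨h0, h1⟩
  refine ⟨0, le_rfl, fun a => ?_⟩
  rw [zero_mul]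
  refine Fin.cases ?_ (fun i => ?_) a
  · simp only [bc, Fin.cons_zero]; linarith
  · simp only [bc, Fin.cons_succ]; exact h0 i

theorem vol_simp (n : ℕ) : volume (Simp n) ≠ 0 := by
  have hsub : (Set.pi univ fun _ : Fin n => Ioo (0 : ℝ) (1 / ((n : ℝ) + 1))) ⊆ Simp n := by
    intro z hz
    have hz' : ∀ i, 0 < z i ∧ z i < 1 / ((n : ℝ) + 1) := fun i => hz i (mem_univ i)
    refine ⟨fun i => (hz' i).1.le, ?_⟩
    have hn : (0 : ℝ) < (n : ℝ) + 1 := by positivity
    calc ∑ i, z i ≤ ∑ _i : Fin n, 1 / ((n : ℝ) + 1) := Finset.sum_le_sum fun i _ => (hz' i).2.le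
      _ = (n : ℝ) * (1 / ((n : ℝ) + 1)) := by simp
      _ ≤ 1 := by
        rw [mul_one_div, div_le_one hn]; linarith
  intro h0
  have h1 : volume (Set.pi univ fun _ : Fin n => Ioo (0 : ℝ) (1 / ((n : ℝ) + 1))) = 0 :=
    measure_mono_null hsub h0
  rw [Real.volume_pi_Ioo] at h1
  rw [Finset.prod_eq_zero_iff] at h1
  obtain ⟨i, -, hi⟩ := h1
  rw [ENNReal.ofReal_eq_zero] at hi
  have hn : (0 : ℝ) < 1 / ((n : ℝ) + 1) := by positivity
  linarith

theorem compact_simp (n : ℕ) : IsCompact (Simp n) := by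
  have hcl : IsClosed (Simp n) := by
    have h1 : IsClosed {z : Fin n → ℝ | ∀ i, 0 ≤ z i} := by
      rw [ofPred_forall]
      exact isClosed_iInter fun i => isClosed_le continuous_const (continuous_apply i)
    have h2 : IsClosed {z : Fin n → ℝ | ∑ i, z i ≤ 1} :=
      isClosed_le (continuous_finsetSum _ fun i _ => continuous_apply i) continuous_const
    exact h1.inter h2
  refine (isCompact_Icc (a := (fun _ => 0 : Fin n → ℝ)) (b := fun _ => 1)).of_isClosed_subset
    hcl ?_
  rintro z ⟨h0, h1⟩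
  refine ⟨fun i => h0 i, fun i => ?_⟩
  exact (Finset.single_le_sum (fun j _ => h0 j) (Finset.mem_univ i)).trans h1

theorem continuous_bc {n : ℕ} (a : Fin (n + 1)) : Continuous fun x : Fin n → ℝ => bc x a := by
  refine Fin.cases ?_ (fun i => ?_) a
  · simp only [bc, Fin.cons_zero]
    exact continuous_const.sub (continuous_finsetSum _ fun i _ => continuous_apply i)
  · simp only [bc, Fin.cons_succ]
    exact continuous_apply i

theorem compact_Kb {n : ℕ} (d : Fin (n + 1) → ℝ) (hd : ∑ a, d a = 1) : IsCompact (Kb d) := by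
  set B : ℝ := 1 + ∑ a, |d a| with hB
  set Q : Set (ℝ × (Fin n → ℝ)) :=
    (Icc (0 : ℝ) 1 ×ˢ Icc (fun _ => -B : Fin n → ℝ) (fun _ => B)) ∩
      {q | ∀ a, q.1 * d a ≤ bc q.2 a} with hQ
  have hQc : IsCompact Q := by
    refine (isCompact_Icc.prod isCompact_Icc).inter_right ?_
    rw [ofPred_forall]
    exact isClosed_iInter fun a => isClosed_le (continuous_fst.mul continuous_const)
      ((continuous_bc a).comp continuous_snd)
  have himg : Kb d = Prod.snd '' Q := by
    ext x
    constructor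
    · rintro ⟨s, hs0, hs⟩
      have hs1 : s ≤ 1 := by
        have h := Finset.sum_le_sum fun a (_ : a ∈ Finset.univ) => hs a
        rw [← Finset.mul_sum, hd, sum_bc, mul_one] at h
        exact h
      have habs : ∀ a, |s * d a| ≤ |d a| := fun a => by
        rw [abs_mul, abs_of_nonneg hs0]
        nlinarith [abs_nonneg (d a)]
      have hlow : ∀ a, -|d a| ≤ bc x a := fun a => by
        have := neg_abs_le (s * d a)
        have := habs a
        have := hs a
        linarith
      have hsingle : ∀ a, |d a| ≤ ∑ b, |d b| := fun a =>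
        Finset.single_le_sum (f := fun b => |d b|) (fun b _ => abs_nonneg _) (Finset.mem_univ a)
      have hup : ∀ a, bc x a ≤ B := fun a => by
        have h1 : ∑ b ∈ Finset.univ.erase a, bc x b + bc x a = 1 := by
          rw [Finset.sum_erase_add _ _ (Finset.mem_univ a), sum_bc]
        have h2 : -∑ b ∈ Finset.univ.erase a, |d b| ≤ ∑ b ∈ Finset.univ.erase a, bc x b := by
          rw [← Finset.sum_neg_distrib]
          exact Finset.sum_le_sum fun b _ => hlow b
        have h3 : ∑ b ∈ Finset.univ.erase a, |d b| ≤ ∑ b, |d b| :=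
          Finset.sum_le_sum_of_subset_of_nonneg (Finset.erase_subset _ _)
            fun b _ _ => abs_nonneg _
        linarith
      refine ⟨(s, x), ⟨⟨⟨hs0, hs1⟩, ⟨fun i => ?_, fun i => ?_⟩⟩, hs⟩, rfl⟩
      · have h := hlow i.succ
        have h' := hsingle i.succ
        simp only [bc, Fin.cons_succ] at h
        show -B ≤ x i
        linarith
      · have h := hup i.succ
        simp only [bc, Fin.cons_succ] at h
        exact h
    · rintro ⟨⟨s, y⟩, ⟨⟨⟨hs0, -⟩, -⟩, hq⟩, rfl⟩
      exact ⟨s, hs0, hq⟩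
  rw [himg]
  exact hQc.image continuous_snd

theorem t_CMP : S_CMP := fun n =>
  ⟨⟨compact_simp n, vol_simp n⟩, fun d hd => ⟨compact_Kb d hd, fun h =>
    vol_simp n (measure_mono_null (simp_subset_Kb d) h)⟩⟩

end Pool.Agent.H4.NV
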